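import Pool.Agent.L7h51.PR.Cod

set_option autoImplicit false
set_option maxHeartbeats 4000000

/-!
# Copies of degenerate graphs
-/

namespace Pool.Agent.L7h51.PR

open Finset SimpleGraph
open scoped Classical

/-- the neighbours of `i` before `i` -/
noncomputable def back {h : ℕ} (H : SimpleGraph (Fin h)) (i : Fin h) : Finset (Fin h) :=
  univ.filter fun j => j < i ∧ H.Adj j i

/-- injective homomorphisms -/
noncomputable def inj {V : Type} [Fintype V] (G : SimpleGraph V) {h : ℕ} (H : SimpleGraph (Fin h)) :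
    Finset (Fin h → V) :=
  univ.filter fun f => Function.Injective f ∧ ∀ i j, H.Adj i j → G.Adj (f i) (f j)

theorem sum_back {h : ℕ} (H : SimpleGraph (Fin h)) : ∑ i, #(back H i) = H.edgeSet.ncard := by
  have h1 : H.edgeSet.ncard = #H.edgeFinset := by
    rw [Set.ncard_eq_toFinset_card', ← SimpleGraph.edgeFinset]
  have h2 := H.sum_degrees_eq_twice_card_edges
  have h3 : ∀ i, H.degree i = #(back H i) + #(univ.filter fun j => i < j ∧ H.Adj j i) := by
    intro i
    rw [← card_union_of_disjoint]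
    · rw [← card_neighborFinset_eq_degree]
      congr 1
      ext j
      simp only [mem_neighborFinset, back, mem_union, mem_filter, mem_univ, true_and]
      constructor
      · intro hij
        rcases lt_trichotomy j i with h | h | h
        · exact Or.inl ⟨h, hij.symm⟩
        · exact absurd h.symm hij.ne
        · exact Or.inr ⟨h, hij.symm⟩
      · rintro (⟨_, h⟩ | ⟨_, h⟩) <;> exact h.symm
    · rw [Finset.disjoint_left]
      intro j hj hj'
      simp only [back, mem_filter, mem_univ, true_and] at hj hj'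
      exact absurd hj.1 (not_lt.2 hj'.1.le)
  have h4 : ∑ i, #(univ.filter fun j => i < j ∧ H.Adj j i) = ∑ i, #(back H i) := by
    have e1 : ∀ i, #(univ.filter fun j => i < j ∧ H.Adj j i) =
        ∑ j, if i < j ∧ H.Adj j i then 1 else 0 := by
      intro i; rw [sum_boole]; simp
    have e2 : ∀ i, #(back H i) = ∑ j, if j < i ∧ H.Adj j i then 1 else 0 := by
      intro i; rw [sum_boole]; simp [back]
    rw [sum_congr rfl fun i _ => e1 i, sum_congr rfl fun i _ => e2 i, sum_comm]
    refine sum_congr rfl fun i _ => sum_congr rfl fun j _ => ?_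
    rw [H.adj_comm i j]
  rw [sum_congr rfl fun i _ => h3 i, sum_add_distrib, h4] at h2
  omega

theorem back_castSucc {h : ℕ} (H : SimpleGraph (Fin (h + 1))) (i : Fin h) :
    #(back H i.castSucc) = #(back (H.comap Fin.castSucc) i) := by
  symm
  rw [← card_map Fin.castSuccEmb]
  congr 1
  ext j
  simp only [back, mem_filter, mem_univ, true_and, mem_map, comap_adj]
  constructor
  · rintro ⟨k, ⟨h1, h2⟩, rfl⟩
    exact ⟨Fin.castSucc_lt_castSucc_iff.2 h1, h2⟩
  · rintro ⟨h1, h2⟩
    have h0 : (j : ℕ) < i := Fin.lt_def.1 h1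
    have h3 : (j : ℕ) < h := lt_of_lt_of_le h0 i.2.le
    exact ⟨⟨j, h3⟩, ⟨Fin.lt_def.2 h0, h2⟩, rfl⟩

theorem card_back_last {h : ℕ} (H : SimpleGraph (Fin (h + 1))) :
    #(univ.filter fun j : Fin h => H.Adj j.castSucc (Fin.last h)) = #(back H (Fin.last h)) := by
  rw [← card_map Fin.castSuccEmb]
  congr 1
  ext j
  simp only [back, mem_filter, mem_univ, true_and, mem_map]
  constructor
  · rintro ⟨k, h1, rfl⟩
    exact ⟨Fin.castSucc_lt_last k, h1⟩
  · rintro ⟨h1, h2⟩
    have h3 : (j : ℕ) < h := by simpa [Fin.lt_def] using h1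
    exact ⟨⟨j, h3⟩, by simpa using h2, by ext; simp⟩

/-- one more vertex -/
theorem inj_succ {V : Type} [Fintype V] (G : SimpleGraph V) {h : ℕ} (H : SimpleGraph (Fin (h + 1)))
    {B : ℝ} (hB : ∀ S : Finset V, #S = #(back H (Fin.last h)) → (#(com G S) : ℝ) ≤ B) :
    (#(inj G H) : ℝ) ≤ #(inj G (H.comap Fin.castSucc)) * B := by
  set N : Finset (Fin h) := univ.filter fun j : Fin h => H.Adj j.castSucc (Fin.last h) with hN
  have h1 : #(inj G H) ≤ #((inj G (H.comap Fin.castSucc)).sigma fun g => com G (N.image g)) := by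
    apply card_le_card_of_injOn (fun f => ⟨fun i => f i.castSucc, f (Fin.last h)⟩)
    · intro f hf
      have hf := (mem_filter.1 (mem_coe.1 hf)).2
      simp only [coe_sigma, Set.mem_sigma_iff, mem_coe]
      refine ⟨?_, ?_⟩
      · refine mem_filter.2 ⟨mem_univ _, ?_, ?_⟩
        · intro a b hab
          exact Fin.castSucc_injective _ (hf.1 hab)
        · intro i j hij
          exact hf.2 _ _ hij
      · rw [mem_com]
        intro s hs
        obtain ⟨j, hj, rfl⟩ := mem_image.1 hs
        exact hf.2 _ _ (mem_filter.1 hj).2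
    · intro f _ f' _ hff
      simp only [Sigma.mk.injEq] at hff
      funext i
      refine Fin.lastCases ?_ (fun i => ?_) i
      · exact eq_of_heq hff.2
      · exact congrFun hff.1 i
  rw [card_sigma] at h1
  have h2 : ∀ g ∈ inj G (H.comap Fin.castSucc), (#(com G (N.image g)) : ℝ) ≤ B := by
    intro g hg
    apply hB
    rw [card_image_of_injective _ (mem_filter.1 hg).2.1, hN, card_back_last]
  calc (#(inj G H) : ℝ) ≤ ((∑ g ∈ inj G (H.comap Fin.castSucc), #(com G (N.image g)) : ℕ) : ℝ) := by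
        exact_mod_cast h1
    _ = ∑ g ∈ inj G (H.comap Fin.castSucc), (#(com G (N.image g)) : ℝ) := by push_cast; rfl
    _ ≤ ∑ g ∈ inj G (H.comap Fin.castSucc), B := sum_le_sum h2
    _ = _ := by rw [sum_const, nsmul_eq_mul]

/-- **copies of degenerate graphs** -/
theorem inj_le {V : Type} [Fintype V] (G : SimpleGraph V) {r : ℕ} {C : ℝ} (hC : 1 ≤ C)
    (hn : 0 < Fintype.card V)
    (hG : ∀ S : Finset V, #S ≤ r →
      (#(com G S) : ℝ) ≤ C * (Fintype.card V : ℝ) ^ (1 - (#S : ℝ) / r)) :
    ∀ (h : ℕ) (H : SimpleGraph (Fin h)), (∀ i, #(back H i) ≤ r) →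
      (#(inj G H) : ℝ) ≤ C ^ h * (Fintype.card V : ℝ) ^ ((h : ℝ) - (∑ i, #(back H i) : ℕ) / r) := by
  intro h
  have hn1 : (0 : ℝ) < Fintype.card V := by exact_mod_cast hn
  induction h with
  | zero =>
    intro H _
    have h1 : #(inj G H) ≤ 1 := by
      apply card_le_one.2
      intro a _ b _
      exact Subsingleton.elim _ _
    simp only [CharP.cast_eq_zero, univ_eq_empty, sum_empty, zero_div, sub_zero, pow_zero,
      Real.rpow_zero, mul_one]
    exact_mod_cast h1
  | succ h ih =>
    intro H hH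
    have h1 := inj_succ G H (B := C * (Fintype.card V : ℝ) ^ (1 - (#(back H (Fin.last h)) : ℝ) / r))
      (fun S hS => by
        have := hG S (by rw [hS]; exact hH _)
        rwa [hS] at this)
    have h2 := ih (H.comap Fin.castSucc) (fun i => by rw [← back_castSucc]; exact hH _)
    rw [Fin.sum_univ_castSucc]
    have h3 : ∑ i : Fin h, #(back H i.castSucc) = ∑ i : Fin h, #(back (H.comap Fin.castSucc) i) :=
      sum_congr rfl fun i _ => back_castSucc H i
    rw [h3]
    have h4 : 0 ≤ C * (Fintype.card V : ℝ) ^ (1 - (#(back H (Fin.last h)) : ℝ) / r) := by positivity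
    refine (h1.trans (mul_le_mul_of_nonneg_right h2 h4)).trans (le_of_eq ?_)
    rw [pow_succ]
    rw [show C ^ h * (Fintype.card V : ℝ) ^ ((h : ℝ) - (∑ i, #(back (H.comap Fin.castSucc) i) : ℕ) / r) *
      (C * (Fintype.card V : ℝ) ^ (1 - (#(back H (Fin.last h)) : ℝ) / r)) =
      C ^ h * C * ((Fintype.card V : ℝ) ^ ((h : ℝ) - (∑ i, #(back (H.comap Fin.castSucc) i) : ℕ) / r) *
      (Fintype.card V : ℝ) ^ (1 - (#(back H (Fin.last h)) : ℝ) / r)) by ring]
    rw [← Real.rpow_add hn1]
    congr 2
    push_cast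
    ring

end Pool.Agent.L7h51.PR
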