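import Mathlib

set_option autoImplicit false
set_option maxHeartbeats 4000000

/-!
# Codegrees and copies of degenerate graphs in `K_{r,r}`-free graphs of large minimum degree
-/

namespace Pool.Agent.L7h51.PR

open Finset SimpleGraph
open scoped Classical

/-- the common neighbours of the vertices in `S` -/
noncomputable def com {V : Type} [Fintype V] (G : SimpleGraph V) (S : Finset V) : Finset V :=
  univ.filter fun x => ∀ s ∈ S, G.Adj s x

variable {V : Type} [Fintype V]

theorem mem_com {G : SimpleGraph V} {S : Finset V} {x : V} : x ∈ com G S ↔ ∀ s ∈ S, G.Adj s x := by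
  simp [com]

theorem com_lt {G : SimpleGraph V} {r : ℕ} (hG : (completeBipartiteGraph (Fin r) (Fin r)).Free G)
    {S : Finset V} (hS : #S = r) : #(com G S) < r := by
  by_contra h
  push Not at h
  obtain ⟨T, hT, hTr⟩ := exists_subset_card_eq h
  apply hG
  rw [completeBipartiteGraph_isContained_iff]
  exact ⟨S, T, by simpa using hS, by simpa using hTr, fun s hs t ht => mem_com.1 (hT ht) s hs⟩

/-- double counting -/
theorem sum_com (G : SimpleGraph V) (S : Finset V) :
    ∑ t ∈ com G S, #(com G {t}) = ∑ x : V, #(com G (insert x S)) := by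
  have h1 : ∀ t, #(com G {t}) = ∑ x : V, if G.Adj t x then 1 else 0 := by
    intro t
    rw [sum_boole]
    simp [com]
  have h2 : ∀ x, #(com G (insert x S)) = ∑ t ∈ com G S, if G.Adj t x then 1 else 0 := by
    intro x
    rw [sum_boole]
    simp only [Nat.cast_id]
    congr 1
    ext t
    simp only [mem_com, mem_filter, mem_insert, forall_eq_or_imp]
    rw [G.adj_comm x t]
    exact and_comm
  rw [sum_congr rfl fun t _ => h1 t, sum_congr rfl fun x _ => h2 x, sum_comm]

/-- the numbers of common neighbours of `j` vertices are of the random order at most -/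
def CodBd (r j : ℕ) (c : ℝ) : Prop := ∃ C : ℝ, 0 < C ∧ ∀ (V : Type) [Fintype V] (G : SimpleGraph V),
  (completeBipartiteGraph (Fin r) (Fin r)).Free G →
  (∀ v, c * (Fintype.card V : ℝ) ^ (1 - 1 / (r : ℝ)) ≤ #(com G {v})) →
  ∀ S : Finset V, #S = j → (#(com G S) : ℝ) ≤ C * (Fintype.card V : ℝ) ^ (1 - (j : ℝ) / r)

theorem codBd_top {r : ℕ} (hr : 2 ≤ r) (c : ℝ) : CodBd r r c := by
  refine ⟨r, by positivity, fun V _ G hG _ S hS => ?_⟩
  have h := com_lt hG hS
  have hr0 : (r : ℝ) ≠ 0 := by positivity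
  rw [div_self hr0, sub_self, Real.rpow_zero, mul_one]
  exact_mod_cast h.le

theorem codBd_step {r j : ℕ} (hr : 2 ≤ r) (hj : j < r) {c : ℝ} (hc : 0 < c)
    (h : CodBd r (j + 1) c) : CodBd r j c := by
  obtain ⟨C, hC, h⟩ := h
  have hrR : (2 : ℝ) ≤ r := by exact_mod_cast hr
  have hr0 : (0 : ℝ) < r := by linarith
  have hjr : (j : ℝ) ≤ r := by exact_mod_cast hj.le
  set e : ℝ := 1 - 1 / (r : ℝ) with he
  have he0 : 0 < e := by
    rw [he, sub_pos, div_lt_one hr0]
    linarith
  set n0 : ℝ := (2 * r / c) ^ (1 / e) with hn0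
  have hn00 : 0 < n0 := by positivity
  refine ⟨2 * C / c + n0, by positivity, fun V _ G hG hd S hS => ?_⟩
  rcases Nat.eq_zero_or_pos (Fintype.card V) with hn | hn
  · have : #(com G S) = 0 := by
      have h1 : #(com G S) ≤ Fintype.card V := card_le_univ _
      omega
    rw [this, Nat.cast_zero]
    positivity
  set n : ℝ := (Fintype.card V : ℝ) with hnd
  have hn1 : 1 ≤ n := by
    rw [hnd]
    exact_mod_cast hn
  have hexp : 0 ≤ 1 - (j : ℝ) / r := by
    rw [sub_nonneg, div_le_one hr0]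
    exact hjr
  have hpow : 1 ≤ n ^ (1 - (j : ℝ) / r) := Real.one_le_rpow hn1 hexp
  have hk : (#(com G S) : ℝ) ≤ n := by
    rw [hnd]
    exact_mod_cast card_le_univ _
  rcases le_or_gt (j : ℝ) (c / 2 * n ^ e) with hjn | hjn
  · -- the main case
    have h1 : (#(com G S) : ℝ) * (c * n ^ e) ≤ ∑ t ∈ com G S, (#(com G {t}) : ℝ) := by
      have := sum_le_sum (s := com G S) fun t _ => hd t
      rw [sum_const, nsmul_eq_mul] at this
      exact this
    have h2 : (∑ t ∈ com G S, (#(com G {t}) : ℝ)) = ∑ x : V, (#(com G (insert x S)) : ℝ) := by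
      exact_mod_cast sum_com G S
    have h3 : (∑ x : V, (#(com G (insert x S)) : ℝ)) ≤
        j * #(com G S) + n * (C * n ^ (1 - ((j + 1 : ℕ) : ℝ) / r)) := by
      have h4 : ∀ x : V, (#(com G (insert x S)) : ℝ) ≤
          (if x ∈ S then (#(com G S) : ℝ) else 0) + C * n ^ (1 - ((j + 1 : ℕ) : ℝ) / r) := by
        intro x
        split_ifs with hx
        · rw [insert_eq_of_mem hx]
          have : 0 ≤ C * n ^ (1 - ((j + 1 : ℕ) : ℝ) / r) := by positivity
          linarith
        · rw [zero_add]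
          exact h V G hG hd _ (by rw [card_insert_of_notMem hx, hS])
      refine (sum_le_sum fun x _ => h4 x).trans (le_of_eq ?_)
      rw [sum_add_distrib, sum_const, card_univ, nsmul_eq_mul, ← hnd, ← sum_filter, sum_const,
        nsmul_eq_mul, filter_mem_eq_inter, univ_inter, hS]
    have h5 : (#(com G S) : ℝ) * (c / 2 * n ^ e) ≤ n * (C * n ^ (1 - ((j + 1 : ℕ) : ℝ) / r)) := by
      have h6 : (j : ℝ) * #(com G S) ≤ c / 2 * n ^ e * #(com G S) :=
        mul_le_mul_of_nonneg_right hjn (Nat.cast_nonneg _)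
      nlinarith [h1, h2, h3, h6]
    have h7 : n * n ^ (1 - ((j + 1 : ℕ) : ℝ) / r) = n ^ (1 - (j : ℝ) / r) * n ^ e := by
      rw [← Real.rpow_add (by linarith)]
      nth_rewrite 1 [← Real.rpow_one n]
      rw [← Real.rpow_add (by linarith)]
      congr 1
      rw [he]
      push_cast
      field_simp
      ring
    have h8 : (#(com G S) : ℝ) * (c / 2) * n ^ e ≤ C * n ^ (1 - (j : ℝ) / r) * n ^ e := by
      calc (#(com G S) : ℝ) * (c / 2) * n ^ e = #(com G S) * (c / 2 * n ^ e) := by ring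
        _ ≤ n * (C * n ^ (1 - ((j + 1 : ℕ) : ℝ) / r)) := h5
        _ = C * (n * n ^ (1 - ((j + 1 : ℕ) : ℝ) / r)) := by ring
        _ = C * n ^ (1 - (j : ℝ) / r) * n ^ e := by rw [h7]; ring
    have h9 : (#(com G S) : ℝ) * (c / 2) ≤ C * n ^ (1 - (j : ℝ) / r) :=
      le_of_mul_le_mul_right h8 (by positivity)
    have h10 : (#(com G S) : ℝ) ≤ 2 * C / c * n ^ (1 - (j : ℝ) / r) := by
      have : 2 * C / c * n ^ (1 - (j : ℝ) / r) = C * n ^ (1 - (j : ℝ) / r) / (c / 2) := by
        field_simp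
      rw [this, le_div_iff₀ (by positivity)]
      exact h9
    have h11 : 0 ≤ n0 * n ^ (1 - (j : ℝ) / r) := by positivity
    linarith [add_mul (2 * C / c) n0 (n ^ (1 - (j : ℝ) / r))]
  · have h1 : n ^ e ≤ 2 * r / c := by
      rw [le_div_iff₀ hc]
      nlinarith
    have h2 : n ≤ n0 := by
      rw [hn0]
      calc n = (n ^ e) ^ (1 / e) := by
            rw [← Real.rpow_mul (by linarith), mul_one_div_cancel he0.ne', Real.rpow_one]
        _ ≤ _ := Real.rpow_le_rpow (by positivity) h1 (by positivity)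
    have h3 : n0 * 1 ≤ n0 * n ^ (1 - (j : ℝ) / r) := mul_le_mul_of_nonneg_left hpow hn00.le
    have h4 : 0 ≤ 2 * C / c * n ^ (1 - (j : ℝ) / r) := by positivity
    linarith [add_mul (2 * C / c) n0 (n ^ (1 - (j : ℝ) / r))]

theorem codBd {r : ℕ} (hr : 2 ≤ r) {c : ℝ} (hc : 0 < c) : ∀ i : ℕ, i ≤ r → CodBd r (r - i) c := by
  intro i
  induction i with
  | zero => intro _; simpa using codBd_top hr c
  | succ i ih =>
    intro hi
    refine codBd_step hr (by omega) hc ?_
    rw [show r - (i + 1) + 1 = r - i by omega]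
    exact ih (by omega)

/-- one constant for all `j` -/
theorem cod {r : ℕ} (hr : 2 ≤ r) {c : ℝ} (hc : 0 < c) : ∃ C : ℝ, 1 ≤ C ∧
    ∀ (V : Type) [Fintype V] (G : SimpleGraph V),
    (completeBipartiteGraph (Fin r) (Fin r)).Free G →
    (∀ v, c * (Fintype.card V : ℝ) ^ (1 - 1 / (r : ℝ)) ≤ #(com G {v})) →
    ∀ S : Finset V, #S ≤ r →
      (#(com G S) : ℝ) ≤ C * (Fintype.card V : ℝ) ^ (1 - (#S : ℝ) / r) := by
  have h1 : ∀ j : ℕ, j ≤ r → CodBd r j c := by
    intro j hj
    have := codBd hr hc (r - j) (by omega)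
    rwa [show r - (r - j) = j by omega] at this
  choose! C hC h using h1
  refine ⟨1 + ∑ j ∈ range (r + 1), |C j|, by
    have : 0 ≤ ∑ j ∈ range (r + 1), |C j| := sum_nonneg fun _ _ => abs_nonneg _
    linarith, fun V _ G hG hd S hS => ?_⟩
  refine (h (#S) hS V G hG hd S rfl).trans ?_
  apply mul_le_mul_of_nonneg_right _ (by positivity)
  have h2 : |C #S| ≤ ∑ j ∈ range (r + 1), |C j| :=
    single_le_sum (f := fun j => |C j|) (fun _ _ => abs_nonneg _) (mem_range.2 (by omega))
  linarith [le_abs_self (C #S)]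

end Pool.Agent.L7h51.PR
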