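import Pool.Agent.L7h51.PR.Cod

set_option autoImplicit false
set_option maxHeartbeats 4000000

/-!
# The number of large eigenvalues
-/

namespace Pool.Agent.L7h51.PR

open Finset SimpleGraph Matrix
open scoped Classical

variable {V : Type} [Fintype V]

theorem isHerm (G : SimpleGraph V) : (G.adjMatrix ℝ).IsHermitian := by
  ext i j
  simp [adjMatrix_apply, G.adj_comm]

/-- the number of eigenvalues of absolute value at least `θ` -/
noncomputable def big (G : SimpleGraph V) (θ : ℝ) : ℕ :=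
  #(univ.filter fun i : V => θ ≤ |(isHerm G).eigenvalues i|)

theorem trace_pow_four (G : SimpleGraph V) :
    ∑ i, (isHerm G).eigenvalues i ^ 4 = ((G.adjMatrix ℝ) ^ 4).trace := by
  have h := (isHerm G).spectral_theorem
  conv_rhs => rw [h]
  rw [← map_pow, Unitary.conjStarAlgAut_apply, Matrix.trace_mul_comm, ← Matrix.mul_assoc]
  rw [Unitary.coe_star_mul_self, Matrix.one_mul, Matrix.diagonal_pow, Matrix.trace_diagonal]
  rfl

theorem sq_apply (G : SimpleGraph V) (x y : V) :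
    ((G.adjMatrix ℝ) ^ 2) x y = #(com G {x, y}) := by
  rw [pow_two, Matrix.mul_apply]
  have : ∀ z, G.adjMatrix ℝ x z * G.adjMatrix ℝ z y = if z ∈ com G {x, y} then 1 else 0 := by
    intro z
    simp only [adjMatrix_apply, mem_com, mem_insert, mem_singleton, forall_eq_or_imp, forall_eq,
      G.adj_comm z y]
    split_ifs <;> simp_all
  rw [sum_congr rfl fun z _ => this z, sum_boole]
  simp

theorem trace_four (G : SimpleGraph V) :
    ((G.adjMatrix ℝ) ^ 4).trace = ∑ x, ∑ y, (#(com G {x, y}) : ℝ) ^ 2 := by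
  rw [show (4 : ℕ) = 2 + 2 by norm_num, pow_add, Matrix.trace]
  refine sum_congr rfl fun x _ => ?_
  rw [diag_apply, Matrix.mul_apply]
  refine sum_congr rfl fun y _ => ?_
  rw [sq_apply, sq_apply, pair_comm y x, pow_two]

/-- at most `2 C² / ρ⁴` eigenvalues are at least `ρ n^(1-1/r)` -/
theorem big_le (G : SimpleGraph V) {r : ℕ} (hr : 2 ≤ r) {C : ℝ} (hC : 1 ≤ C)
    (hG : ∀ S : Finset V, #S ≤ r →
      (#(com G S) : ℝ) ≤ C * (Fintype.card V : ℝ) ^ (1 - (#S : ℝ) / r)) {ρ : ℝ} (hρ : 0 < ρ) :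
    (big G (ρ * (Fintype.card V : ℝ) ^ (1 - 1 / (r : ℝ))) : ℝ) ≤ 2 * C ^ 2 / ρ ^ 4 := by
  rcases Nat.eq_zero_or_pos (Fintype.card V) with hn | hn
  · have : big G (ρ * (Fintype.card V : ℝ) ^ (1 - 1 / (r : ℝ))) = 0 := by
      have h1 : big G (ρ * (Fintype.card V : ℝ) ^ (1 - 1 / (r : ℝ))) ≤ Fintype.card V :=
        card_le_univ _
      omega
    rw [this, Nat.cast_zero]
    positivity
  set n : ℝ := (Fintype.card V : ℝ) with hnd
  have hn1 : 1 ≤ n := by
    rw [hnd]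
    exact_mod_cast hn
  have hn0 : 0 < n := by linarith
  have hrR : (2 : ℝ) ≤ r := by exact_mod_cast hr
  have hr0 : (0 : ℝ) < r := by linarith
  -- the sum
  have h1 : ∑ x, ∑ y, (#(com G {x, y}) : ℝ) ^ 2 ≤ 2 * C ^ 2 * n ^ (4 - 4 / (r : ℝ)) := by
    have h2 : ∀ x y, (#(com G {x, y}) : ℝ) ^ 2 ≤
        (if x = y then C ^ 2 * n ^ (2 - 2 / (r : ℝ)) else 0) + C ^ 2 * n ^ (2 - 4 / (r : ℝ)) := by
      intro x y
      have hp1 : 0 ≤ C ^ 2 * n ^ (2 - 4 / (r : ℝ)) := by positivity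
      split_ifs with hxy
      · subst hxy
        have h3 := hG {x, x} (by simp; omega)
        rw [pair_eq_singleton, card_singleton, Nat.cast_one] at h3
        rw [pair_eq_singleton]
        have h4 : (#(com G {x}) : ℝ) ^ 2 ≤ (C * n ^ (1 - 1 / (r : ℝ))) ^ 2 :=
          pow_le_pow_left₀ (Nat.cast_nonneg _) h3 2
        rw [mul_pow, ← Real.rpow_natCast (n ^ (1 - 1 / (r : ℝ))) 2, ← Real.rpow_mul hn0.le] at h4
        have h5 : (1 - 1 / (r : ℝ)) * ((2 : ℕ) : ℝ) = 2 - 2 / r := by push_cast; ring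
        rw [h5] at h4
        linarith
      · have h3 := hG {x, y} (by rw [card_pair hxy]; exact hr)
        rw [card_pair hxy] at h3
        have h4 : (#(com G {x, y}) : ℝ) ^ 2 ≤ (C * n ^ (1 - ((2 : ℕ) : ℝ) / (r : ℝ))) ^ 2 :=
          pow_le_pow_left₀ (Nat.cast_nonneg _) h3 2
        rw [mul_pow, ← Real.rpow_natCast (n ^ (1 - ((2 : ℕ) : ℝ) / (r : ℝ))) 2,
          ← Real.rpow_mul hn0.le] at h4
        have h5 : (1 - ((2 : ℕ) : ℝ) / (r : ℝ)) * ((2 : ℕ) : ℝ) = 2 - 4 / r := by push_cast; ring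
        rw [h5] at h4
        linarith
    have h3 : ∑ x : V, ∑ y : V, ((if x = y then C ^ 2 * n ^ (2 - 2 / (r : ℝ)) else 0) +
        C ^ 2 * n ^ (2 - 4 / (r : ℝ))) =
        n * (C ^ 2 * n ^ (2 - 2 / (r : ℝ))) + n * (n * (C ^ 2 * n ^ (2 - 4 / (r : ℝ)))) := by
      simp only [sum_add_distrib, sum_ite_eq, mem_univ, if_true, sum_const, card_univ,
        nsmul_eq_mul, ← hnd]
    refine (sum_le_sum fun x _ => sum_le_sum fun y _ => h2 x y).trans ?_
    rw [h3]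
    have h4 : n * n ^ (2 - 2 / (r : ℝ)) ≤ n ^ (4 - 4 / (r : ℝ)) := by
      nth_rewrite 1 [← Real.rpow_one n]
      rw [← Real.rpow_add hn0]
      apply Real.rpow_le_rpow_of_exponent_le hn1
      have : 2 / (r : ℝ) ≤ 1 := by rw [div_le_one hr0]; exact hrR
      have h6 : 4 / (r : ℝ) = 2 / r + 2 / r := by ring
      rw [h6]
      linarith
    have h5 : n * (n * n ^ (2 - 4 / (r : ℝ))) = n ^ (4 - 4 / (r : ℝ)) := by
      nth_rewrite 2 [← Real.rpow_one n]
      nth_rewrite 1 [← Real.rpow_one n]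
      rw [← Real.rpow_add hn0, ← Real.rpow_add hn0]
      congr 1
      ring
    have hC2 : 0 ≤ C ^ 2 := by positivity
    have h6 := mul_le_mul_of_nonneg_left h4 hC2
    calc n * (C ^ 2 * n ^ (2 - 2 / (r : ℝ))) + n * (n * (C ^ 2 * n ^ (2 - 4 / (r : ℝ)))) =
        C ^ 2 * (n * n ^ (2 - 2 / (r : ℝ))) + C ^ 2 * (n * (n * n ^ (2 - 4 / (r : ℝ)))) := by ring
      _ ≤ C ^ 2 * n ^ (4 - 4 / (r : ℝ)) + C ^ 2 * n ^ (4 - 4 / (r : ℝ)) := by rw [h5]; linarith
      _ = _ := by ring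
  rw [← trace_four, ← trace_pow_four] at h1
  set θ : ℝ := ρ * n ^ (1 - 1 / (r : ℝ)) with hθ
  have hθ0 : 0 < θ := by positivity
  have h7 : (big G θ : ℝ) * θ ^ 4 ≤ ∑ i, (isHerm G).eigenvalues i ^ 4 := by
    unfold big
    rw [← nsmul_eq_mul, ← sum_const]
    refine le_trans ?_ (sum_le_sum_of_subset_of_nonneg (filter_subset
      (fun i => θ ≤ |(isHerm G).eigenvalues i|) univ) fun i _ _ => by positivity)
    apply sum_le_sum
    intro i hi
    have h8 := (mem_filter.1 hi).2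
    calc θ ^ 4 ≤ |(isHerm G).eigenvalues i| ^ 4 := pow_le_pow_left₀ hθ0.le h8 4
      _ = (isHerm G).eigenvalues i ^ 4 := by
        rw [← abs_pow, abs_of_nonneg (by positivity)]
  have h9 : θ ^ 4 = ρ ^ 4 * n ^ (4 - 4 / (r : ℝ)) := by
    rw [hθ, mul_pow, ← Real.rpow_natCast (n ^ (1 - 1 / (r : ℝ))) 4, ← Real.rpow_mul hn0.le]
    congr 2
    push_cast
    ring
  have h10 : 0 < n ^ (4 - 4 / (r : ℝ)) := by positivity
  have h11 : (big G θ : ℝ) * ρ ^ 4 * n ^ (4 - 4 / (r : ℝ)) ≤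
      2 * C ^ 2 * n ^ (4 - 4 / (r : ℝ)) := by
    rw [mul_assoc, ← h9]
    linarith
  rw [le_div_iff₀ (by positivity)]
  exact le_of_mul_le_mul_right h11 h10

end Pool.Agent.L7h51.PR
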