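import Pool.Agent.L7h51.PR.Spr
import Pool.Agent.L7h47.KRR.Basic

set_option autoImplicit false
set_option maxHeartbeats 4000000

/-!
# Pseudorandom graphs without `K_{r,r}`: definitions of the result, assembly
-/

namespace Pool.Agent.L7h51.PR

open Finset SimpleGraph Filter
open scoped Classical

/-- the number of edges of `G` with both ends in `B` -/
noncomputable def edgesIn {V : Type} (G : SimpleGraph V) (B : Finset V) : ℕ :=
  {e : Sym2 V | e ∈ G.edgeSet ∧ ∀ v ∈ e, v ∈ B}.ncard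

/-- the number of edges of `G` with one end in `B` and the other one outside -/
noncomputable def cut {V : Type} (G : SimpleGraph V) (B : Finset V) : ℕ :=
  {p : V × V | p.1 ∈ B ∧ p.2 ∉ B ∧ G.Adj p.1 p.2}.ncard

/-- the number of the common neighbours of the vertices in `S` -/
noncomputable def common {V : Type} (G : SimpleGraph V) (S : Finset V) : ℕ :=
  {x : V | ∀ s ∈ S, G.Adj s x}.ncard

/-- the number of eigenvalues of the adjacency matrix of `G`, with multiplicities, of absolute value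
at least `θ` -/
noncomputable def largeEigenvalues {V : Type} [Fintype V] (G : SimpleGraph V) (θ : ℝ) : ℕ :=
  {i : V | θ ≤ |(isHerm G).eigenvalues i|}.ncard

/-- every vertex of `H` has at most `r` neighbours before it -/
def Degenerate (r : ℕ) {h : ℕ} (H : SimpleGraph (Fin h)) : Prop :=
  ∀ i, {j : Fin h | j < i ∧ H.Adj j i}.ncard ≤ r

/-- Codegrees, copies of degenerate graphs and large eigenvalues as in a random graph with `n`
vertices and average degree `n ^ (1 - 1 / r)`, up to the constant `C`. -/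
structure BoundedCounts (r : ℕ) (C : ℝ) {V : Type} [Fintype V] (G : SimpleGraph V) : Prop where
  /-- at most `C n ^ (1 - j / r)` common neighbours of `j` vertices -/
  codegrees : ∀ S : Finset V, #S ≤ r →
    (common G S : ℝ) ≤ C * (Fintype.card V : ℝ) ^ (1 - (#S : ℝ) / r)
  /-- at most `C ^ h n ^ (h - e(H) / r)` copies of `H` -/
  copies : ∀ (h : ℕ) (H : SimpleGraph (Fin h)), Degenerate r H →
    (Nat.card (H.Copy G) : ℝ) ≤
      C ^ h * (Fintype.card V : ℝ) ^ ((h : ℝ) - (H.edgeSet.ncard : ℝ) / r)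
  /-- at most `C / ρ ^ 4` eigenvalues of absolute value at least `ρ n ^ (1 - 1 / r)` -/
  eigenvalues : ∀ ρ : ℝ, 0 < ρ →
    (largeEigenvalues G (ρ * (Fintype.card V : ℝ) ^ (1 - 1 / (r : ℝ))) : ℝ) ≤ C / ρ ^ 4

/-- All degrees are at least `c n ^ (1 - 1 / r)`, and the edges are spread over the graph. -/
structure Spread (r : ℕ) (γ c : ℝ) {V : Type} [Fintype V] (G : SimpleGraph V) : Prop where
  degrees : ∀ v, c * (Fintype.card V : ℝ) ^ (1 - 1 / (r : ℝ)) ≤ (G.neighborSet v).ncard
  /-- a set of `b n` vertices contains at most `b ^ γ e(G)` edges -/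
  inside : ∀ B : Finset V,
    (edgesIn G B : ℝ) ≤ ((#B : ℝ) / Fintype.card V) ^ γ * G.edgeSet.ncard
  /-- expansion of the edge boundary -/
  boundary : ∀ B : Finset V, 2 * #B ≤ Fintype.card V →
    (1 - 2 ^ (1 - γ)) * (#B * (2 * G.edgeSet.ncard / Fintype.card V)) ≤ (cut G B : ℝ)

section conv

variable {V : Type} [Fintype V]

theorem common_eq (G : SimpleGraph V) (S : Finset V) : common G S = #(com G S) := by
  unfold common com
  rw [Set.ncard_eq_toFinset_card']
  congr 1
  ext x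
  simp

theorem nbr_eq (G : SimpleGraph V) (v : V) : (G.neighborSet v).ncard = #(com G {v}) := by
  rw [← common_eq]
  unfold common
  congr 1
  ext x
  simp

theorem large_eq (G : SimpleGraph V) (θ : ℝ) : largeEigenvalues G θ = big G θ := by
  unfold largeEigenvalues big
  rw [Set.ncard_eq_toFinset_card']
  congr 1
  ext x
  simp

theorem back_eq {h : ℕ} (H : SimpleGraph (Fin h)) (i : Fin h) :
    {j : Fin h | j < i ∧ H.Adj j i}.ncard = #(back H i) := by
  unfold back
  rw [Set.ncard_eq_toFinset_card']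
  congr 1
  ext x
  simp

theorem copy_le (G : SimpleGraph V) {h : ℕ} (H : SimpleGraph (Fin h)) :
    Nat.card (H.Copy G) ≤ #(inj G H) := by
  have h1 : ∀ f : H.Copy G, (fun i => f i) ∈ inj G H := fun f =>
    mem_filter.2 ⟨mem_univ _, f.injective, fun i j hij => f.toHom.map_adj hij⟩
  have h2 : Function.Injective (fun f : H.Copy G => (⟨fun i => f i, h1 f⟩ : {g // g ∈ inj G H})) := by
    intro f g hfg
    have h3 := congrArg Subtype.val hfg
    exact DFunLike.coe_injective h3
  have h3 := Nat.card_le_card_of_injective _ h2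
  simpa using h3

theorem two_edges (G : SimpleGraph V) : 2 * G.edgeSet.ncard = pr G univ := by
  rw [pr_univ]
  have h1 : G.edgeSet.ncard = #G.edgeFinset := by
    rw [Set.ncard_eq_toFinset_card', ← SimpleGraph.edgeFinset]
  rw [h1, ← G.sum_degrees_eq_twice_card_edges]
  refine sum_congr rfl fun x _ => ?_
  rw [← nbr_eq, Set.ncard_eq_toFinset_card', ← card_neighborFinset_eq_degree]
  rfl

theorem two_edgesIn (G : SimpleGraph V) (B : Finset V) : 2 * edgesIn G B = pr G B := by
  let G' : SimpleGraph V :=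
    { Adj := fun x y => G.Adj x y ∧ x ∈ B ∧ y ∈ B
      symm := ⟨fun x y h => ⟨h.1.symm, h.2.2, h.2.1⟩⟩
      loopless := ⟨fun x h => G.loopless.irrefl x h.1⟩ }
  have h1 : edgesIn G B = G'.edgeSet.ncard := by
    unfold edgesIn
    congr 1
    ext e
    induction e using Sym2.ind with
    | _ x y =>
      simp only [Set.mem_ofPred_eq, SimpleGraph.mem_edgeSet, Sym2.mem_iff, forall_eq_or_imp,
        forall_eq]
      rfl
  rw [h1, two_edges, pr_eq_sum, pr_eq_sum]
  have h2 : ∀ x y, (if G'.Adj x y then 1 else 0) =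
      if x ∈ B then (if y ∈ B then (if G.Adj x y then 1 else 0) else 0) else 0 := by
    intro x y
    by_cases hx : x ∈ B <;> by_cases hy : y ∈ B <;> simp [G', hx, hy]
  have h3 : (∑ x : V, ∑ y : V, if G'.Adj x y then 1 else 0) = ∑ x : V, ∑ y : V,
      if x ∈ B then (if y ∈ B then (if G.Adj x y then 1 else 0) else 0) else 0 :=
    sum_congr rfl fun x _ => sum_congr rfl fun y _ => h2 x y
  refine Eq.trans ?_ (h3.trans ?_)
  · refine sum_congr rfl fun x _ => sum_congr rfl fun y _ => ?_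
    congr
  rw [← sum_subset (subset_univ B) (fun x _ hx => by simp [hx])]
  refine sum_congr rfl fun x hx => ?_
  rw [← sum_subset (subset_univ B) (fun y _ hy => by simp [hy])]
  refine sum_congr rfl fun y hy => ?_
  simp [hx, hy]

theorem cut_eq (G : SimpleGraph V) (B : Finset V) : cut G B = ct G B := by
  have h1 : cut G B = #((B ×ˢ Bᶜ).filter fun p => G.Adj p.1 p.2) := by
    unfold cut
    rw [Set.ncard_eq_toFinset_card']
    congr 1
    ext p
    simp [and_assoc]
  rw [h1, ct_eq_sum, card_filter, sum_product]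

theorem Sparse.spread {r : ℕ} {γ c : ℝ} (hγ : 1 ≤ γ) {G : SimpleGraph V} (h : Sparse γ G)
    (hV : 0 < Fintype.card V)
    (hd : c * (Fintype.card V : ℝ) ^ (2 - 1 / (r : ℝ)) ≤ G.edgeSet.ncard) : Spread r γ c G := by
  have hn0 : (0 : ℝ) < Fintype.card V := by exact_mod_cast hV
  have h2e : (2 : ℝ) * G.edgeSet.ncard = pr G univ := by exact_mod_cast two_edges G
  refine ⟨fun v => ?_, fun B => ?_, fun B hB => ?_⟩
  · have h1 := h.min_deg hγ v
    rw [nbr_eq]
    rw [← h2e] at h1
    have h3 : (Fintype.card V : ℝ) ^ (2 - 1 / (r : ℝ)) =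
        Fintype.card V * (Fintype.card V : ℝ) ^ (1 - 1 / (r : ℝ)) := by
      nth_rewrite 2 [← Real.rpow_one (Fintype.card V : ℝ)]
      rw [← Real.rpow_add hn0]
      congr 1
      ring
    rw [h3] at hd
    have h4 : (Fintype.card V : ℝ) * (c * (Fintype.card V : ℝ) ^ (1 - 1 / (r : ℝ))) ≤
        Fintype.card V * #(com G {v}) := by nlinarith
    exact le_of_mul_le_mul_left h4 hn0
  · have h1 := h B
    have h2 : (2 : ℝ) * edgesIn G B = pr G B := by exact_mod_cast two_edgesIn G B
    rw [← h2, ← h2e] at h1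
    have hnγ : 0 < (Fintype.card V : ℝ) ^ γ := by positivity
    rw [Real.div_rpow (Nat.cast_nonneg _) hn0.le, div_mul_eq_mul_div, le_div_iff₀ hnγ]
    nlinarith
  · have h1 := h.expand hγ hB
    rw [cut_eq]
    rw [← h2e] at h1
    have e1 : (1 - 2 ^ (1 - γ)) * ((#B : ℝ) * (2 * G.edgeSet.ncard / Fintype.card V)) =
        (1 - 2 ^ (1 - γ)) * #B * (2 * G.edgeSet.ncard) / Fintype.card V := by ring
    rw [e1, div_le_iff₀ hn0, mul_comm (ct G B : ℝ)]
    exact h1

end conv

/-- **(1) graphs of large minimum degree** -/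
theorem bounded {r : ℕ} (hr : 2 ≤ r) {c : ℝ} (hc : 0 < c) : ∃ C : ℝ, 0 < C ∧
    ∀ (V : Type) [Fintype V] (G : SimpleGraph V),
    (completeBipartiteGraph (Fin r) (Fin r)).Free G →
    (∀ v, c * (Fintype.card V : ℝ) ^ (1 - 1 / (r : ℝ)) ≤ (G.neighborSet v).ncard) →
    BoundedCounts r C G := by
  obtain ⟨C, hC, h⟩ := cod hr hc
  have hC2 : C ≤ 2 * C ^ 2 := by nlinarith
  refine ⟨2 * C ^ 2, by positivity, fun V _ G hG hd => ?_⟩
  simp only [nbr_eq] at hd
  have h1 := h V G hG hd
  refine ⟨fun S hS => ?_, fun k H hH => ?_, fun ρ hρ => ?_⟩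
  · rw [common_eq]
    exact (h1 S hS).trans (mul_le_mul_of_nonneg_right hC2 (by positivity))
  · rcases Nat.eq_zero_or_pos (Fintype.card V) with hn | hn
    · rcases Nat.eq_zero_or_pos k with hk | hk
      · subst hk
        have h2 : Nat.card (H.Copy G) ≤ 1 := by
          have : #(inj G H) ≤ 1 := card_le_one.2 fun a _ b _ => Subsingleton.elim _ _
          exact (copy_le G H).trans this
        have h3 : H.edgeSet.ncard = 0 := by
          rw [← sum_back]; simp
        rw [h3]
        simp only [CharP.cast_eq_zero, zero_div, sub_zero, pow_zero, Real.rpow_zero, mul_one]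
        exact_mod_cast h2
      · have h2 : Nat.card (H.Copy G) = 0 := by
          have : #(inj G H) = 0 := by
            rw [card_eq_zero, eq_empty_iff_forall_notMem]
            intro f _
            have := Fintype.card_eq_zero_iff.1 hn
            exact this.false (f ⟨0, hk⟩)
          have h4 := copy_le G H
          omega
        rw [h2, Nat.cast_zero]
        positivity
    · have h2 := inj_le G hC hn h1 k H (fun i => by rw [← back_eq]; exact hH i)
      rw [sum_back] at h2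
      have h3 : (Nat.card (H.Copy G) : ℝ) ≤ #(inj G H) := by exact_mod_cast copy_le G H
      refine (h3.trans h2).trans (mul_le_mul_of_nonneg_right ?_ (by positivity))
      exact pow_le_pow_left₀ (by linarith) hC2 k
  · rw [large_eq]
    exact big_le G hr hC h1 hρ

/-- **(2) graphs of extremal order** -/
theorem extremal {r : ℕ} (hr : 2 ≤ r) {c γ : ℝ} (hc : 0 < c) (hγ : 1 ≤ γ)
    (hγ2 : γ < 2 - 1 / (r : ℝ)) : ∃ C δ : ℝ, 0 < C ∧ 0 < δ ∧
    ∀ (V : Type) [Fintype V] (G : SimpleGraph V), 0 < Fintype.card V →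
    (completeBipartiteGraph (Fin r) (Fin r)).Free G →
    c * (Fintype.card V : ℝ) ^ (2 - 1 / (r : ℝ)) ≤ G.edgeSet.ncard →
    ∃ (m : ℕ) (f : Fin m ↪ V), δ * Fintype.card V ≤ m ∧
      BoundedCounts r C (G.comap f) ∧ Spread r γ c (G.comap f) := by
  obtain ⟨C, hC, h⟩ := bounded hr hc
  obtain ⟨δ, hδ, h'⟩ := exists_large hr (γ := γ) (c := 2 * c) hγ2 (by linarith) (by linarith)
  refine ⟨C, δ, hC, hδ, fun V _ G hV hG hcn => ?_⟩
  have h2e : ∀ {W : Type} [Fintype W] (G : SimpleGraph W),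
      (2 : ℝ) * G.edgeSet.ncard = pr G univ := fun G => by exact_mod_cast two_edges G
  obtain ⟨m, f, hm, hδm, hs, hcm⟩ := h' V G hG hV (by rw [← h2e]; linarith)
  rw [← h2e] at hcm
  have hsp : Spread r γ c (G.comap f) := by
    refine hs.spread hγ (by rw [Fintype.card_fin]; exact hm) ?_
    rw [Fintype.card_fin]
    linarith
  exact ⟨m, f, hδm, h _ _ (free_comap f hG) hsp.degrees, hsp⟩

/-- **(3) the equivalence** -/
theorem equivalence {r : ℕ} (hr : 2 ≤ r) {γ : ℝ} (hγ : 1 ≤ γ) (hγ2 : γ < 2 - 1 / (r : ℝ)) :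
    (∃ c : ℝ, 0 < c ∧ ∀ᶠ n : ℕ in atTop, c * (n : ℝ) ^ (2 - 1 / (r : ℝ)) ≤
      extremalNumber n (completeBipartiteGraph (Fin r) (Fin r))) ↔
    ∃ c C δ : ℝ, 0 < c ∧ 0 < C ∧ 0 < δ ∧ ∀ᶠ n : ℕ in atTop, ∃ (m : ℕ) (G : SimpleGraph (Fin m)),
      δ * n ≤ m ∧ m ≤ n ∧ (completeBipartiteGraph (Fin r) (Fin r)).Free G ∧
        BoundedCounts r C G ∧ Spread r γ c G := by
  constructor
  · rintro ⟨c, hc, h⟩
    obtain ⟨C, δ, hC, hδ, h'⟩ := extremal hr hc hγ hγ2
    refine ⟨c, C, δ, hc, hC, hδ, ?_⟩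
    filter_upwards [h, eventually_ge_atTop 1] with n hn hn1
    obtain ⟨G, hG, hGe⟩ := Pool.Agent.L7h47.KRR.exists_ex
      (completeBipartiteGraph (Fin r) (Fin r)) (Pool.Agent.L7h47.KRR.krr_ne_bot (by omega)) n
    obtain ⟨m, f, h1, h2, h3⟩ := h' (Fin n) G (by rw [Fintype.card_fin]; omega) hG
      (by rw [Fintype.card_fin, hGe]; exact hn)
    rw [Fintype.card_fin] at h1
    have h4 := Fintype.card_le_of_embedding f
    rw [Fintype.card_fin, Fintype.card_fin] at h4
    exact ⟨m, G.comap f, h1, h4, free_comap f hG, h2, h3⟩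
  · rintro ⟨c, C, δ, hc, hC, hδ, h⟩
    have hrR : (2 : ℝ) ≤ r := by exact_mod_cast hr
    have h1r : 1 / (r : ℝ) ≤ 1 / 2 := one_div_le_one_div_of_le (by norm_num) hrR
    refine ⟨c / 2 * δ ^ (2 - 1 / (r : ℝ)), by positivity, ?_⟩
    filter_upwards [h, eventually_ge_atTop 1] with n hn hn1
    obtain ⟨m, G, h1, h2, h3, _, h4⟩ := hn
    have hn0 : (0 : ℝ) < n := by exact_mod_cast hn1
    have hm0 : (0 : ℝ) < m := lt_of_lt_of_le (by positivity) h1
    have h5 : G.edgeSet.ncard ≤ extremalNumber n (completeBipartiteGraph (Fin r) (Fin r)) :=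
      Pool.Agent.L7h47.KRR.ex_mono _ (Pool.Agent.L7h47.KRR.krr_adj (by omega)) h2 G h3
    have h6 : (2 : ℝ) * G.edgeSet.ncard = pr G univ := by exact_mod_cast two_edges G
    have h7 : c * (m : ℝ) ^ (2 - 1 / (r : ℝ)) ≤ pr G univ := by
      rw [pr_univ]
      push_cast
      have h8 : ∀ v, c * (m : ℝ) ^ (1 - 1 / (r : ℝ)) ≤ #(com G {v}) := by
        intro v
        have := h4.degrees v
        rwa [nbr_eq, Fintype.card_fin] at this
      refine le_trans (le_of_eq ?_) (sum_le_sum fun v _ => h8 v)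
      rw [sum_const, card_univ, Fintype.card_fin, nsmul_eq_mul]
      have : (m : ℝ) ^ (2 - 1 / (r : ℝ)) = m * (m : ℝ) ^ (1 - 1 / (r : ℝ)) := by
        nth_rewrite 2 [← Real.rpow_one (m : ℝ)]
        rw [← Real.rpow_add hm0]
        congr 1
        ring
      rw [this]
      ring
    have h9 : (δ * n) ^ (2 - 1 / (r : ℝ)) ≤ (m : ℝ) ^ (2 - 1 / (r : ℝ)) :=
      Real.rpow_le_rpow (by positivity) h1 (by linarith)
    rw [Real.mul_rpow hδ.le hn0.le] at h9
    have h10 : (G.edgeSet.ncard : ℝ) ≤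
        extremalNumber n (completeBipartiteGraph (Fin r) (Fin r)) := by exact_mod_cast h5
    calc c / 2 * δ ^ (2 - 1 / (r : ℝ)) * (n : ℝ) ^ (2 - 1 / (r : ℝ)) =
        c / 2 * (δ ^ (2 - 1 / (r : ℝ)) * (n : ℝ) ^ (2 - 1 / (r : ℝ))) := by ring
      _ ≤ c / 2 * (m : ℝ) ^ (2 - 1 / (r : ℝ)) := by gcongr
      _ ≤ G.edgeSet.ncard := by linarith
      _ ≤ _ := h10

end Pool.Agent.L7h51.PR
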