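import Pool.Agent.L7h51.PR.Cnt
import Pool.Agent.L7h51.PR.Eig

set_option autoImplicit false
set_option maxHeartbeats 4000000

/-!
# Subgraphs with few edges on all subsets
-/

namespace Pool.Agent.L7h51.PR

open Finset SimpleGraph
open scoped Classical

variable {V : Type} [Fintype V]

/-- twice the number of edges inside `B` -/
noncomputable def pr (G : SimpleGraph V) (B : Finset V) : ℕ := ∑ x ∈ B, #(B.filter fun y => G.Adj x y)

/-- edges between `B` and the complement -/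
noncomputable def ct (G : SimpleGraph V) (B : Finset V) : ℕ := ∑ x ∈ B, #(Bᶜ.filter fun y => G.Adj x y)

theorem pr_eq_sum (G : SimpleGraph V) (B : Finset V) :
    pr G B = ∑ x ∈ B, ∑ y ∈ B, if G.Adj x y then 1 else 0 := by
  unfold pr
  refine sum_congr rfl fun x _ => ?_
  rw [sum_boole]; simp

theorem ct_eq_sum (G : SimpleGraph V) (B : Finset V) :
    ct G B = ∑ x ∈ B, ∑ y ∈ Bᶜ, if G.Adj x y then 1 else 0 := by
  unfold ct
  refine sum_congr rfl fun x _ => ?_
  rw [sum_boole]; simp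

theorem pr_split (G : SimpleGraph V) (B : Finset V) :
    pr G univ = pr G B + pr G Bᶜ + 2 * ct G B := by
  rw [pr_eq_sum, pr_eq_sum, pr_eq_sum, ct_eq_sum]
  have h : ∀ f : V → ℕ, ∑ x, f x = ∑ x ∈ B, f x + ∑ x ∈ Bᶜ, f x := fun f =>
    (sum_add_sum_compl B f).symm
  rw [h]
  simp_rw [h (fun y => if G.Adj _ y then 1 else 0)]
  rw [sum_add_distrib, sum_add_distrib]
  have h2 : ∑ x ∈ Bᶜ, ∑ y ∈ B, (if G.Adj x y then 1 else 0) =
      ∑ x ∈ B, ∑ y ∈ Bᶜ, if G.Adj x y then 1 else 0 := by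
    rw [sum_comm]
    simp_rw [G.adj_comm]
  rw [h2]
  ring

/-- few edges inside all subsets -/
def Sparse (γ : ℝ) (G : SimpleGraph V) : Prop :=
  ∀ B : Finset V, (pr G B : ℝ) * (Fintype.card V : ℝ) ^ γ ≤ pr G univ * (#B : ℝ) ^ γ

theorem rpow_conv {γ b : ℝ} (hγ : 1 ≤ γ) (h0 : 0 ≤ b) (h1 : b ≤ 1 / 2) :
    b ^ γ + (1 - b) ^ γ ≤ 1 - 2 * b * (1 - 2 ^ (1 - γ)) := by
  have hc := (convexOn_rpow hγ).2
  have e0 : (0 : ℝ) ^ γ = 0 := Real.zero_rpow (by linarith)
  have e2 : (1 / 2 : ℝ) ^ γ = 2 ^ (1 - γ) / 2 := by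
    rw [Real.rpow_sub (by norm_num), Real.rpow_one, one_div, Real.inv_rpow (by norm_num)]
    field_simp
  have a1 := hc (x := 0) (Set.mem_Ici.2 le_rfl) (y := 1 / 2) (Set.mem_Ici.2 (by norm_num))
    (a := 1 - 2 * b) (b := 2 * b) (by linarith) (by linarith) (by ring)
  have a2 := hc (x := 1) (Set.mem_Ici.2 zero_le_one) (y := 1 / 2) (Set.mem_Ici.2 (by norm_num))
    (a := 1 - 2 * b) (b := 2 * b) (by linarith) (by linarith) (by ring)
  simp only [smul_eq_mul] at a1 a2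
  rw [show (1 - 2 * b) * 0 + 2 * b * (1 / 2) = b by ring, e0, e2] at a1
  rw [show (1 - 2 * b) * 1 + 2 * b * (1 / 2) = 1 - b by ring, Real.one_rpow, e2] at a2
  linarith

/-- edge expansion -/
theorem Sparse.expand {γ : ℝ} (hγ : 1 ≤ γ) {G : SimpleGraph V} (h : Sparse γ G) {B : Finset V}
    (hB : 2 * #B ≤ Fintype.card V) :
    (1 - 2 ^ (1 - γ)) * (#B : ℝ) * pr G univ ≤ (Fintype.card V : ℝ) * ct G B := by
  rcases Nat.eq_zero_or_pos (Fintype.card V) with hn | hn
  · have : #B = 0 := by omega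
    rw [this, hn]; simp
  set n : ℝ := (Fintype.card V : ℝ) with hnd
  have hn0 : 0 < n := by rw [hnd]; exact_mod_cast hn
  have hnγ : 0 < n ^ γ := Real.rpow_pos_of_pos hn0 γ
  set b : ℝ := (#B : ℝ) / n with hb
  have hb0 : 0 ≤ b := by positivity
  have hb1 : b ≤ 1 / 2 := by
    rw [hb, div_le_iff₀ hn0]
    have : (2 : ℝ) * #B ≤ n := by rw [hnd]; exact_mod_cast hB
    linarith
  have hc : (#Bᶜ : ℝ) = n - #B := by
    rw [card_compl, Nat.cast_sub (card_le_univ _), hnd]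
  have e1 : (#B : ℝ) ^ γ = b ^ γ * n ^ γ := by
    rw [← Real.mul_rpow hb0 hn0.le, hb, div_mul_cancel₀ _ hn0.ne']
  have e2 : (#Bᶜ : ℝ) ^ γ = (1 - b) ^ γ * n ^ γ := by
    rw [← Real.mul_rpow (by linarith) hn0.le, hc, sub_mul, hb, div_mul_cancel₀ _ hn0.ne', one_mul]
  have h1 := h B
  have h2 := h Bᶜ
  rw [← hnd, e1, ← mul_assoc] at h1
  rw [← hnd, e2, ← mul_assoc] at h2
  have h1' := le_of_mul_le_mul_right h1 hnγ
  have h2' := le_of_mul_le_mul_right h2 hnγ
  have h3 : (pr G univ : ℝ) = pr G B + pr G Bᶜ + 2 * ct G B := by exact_mod_cast pr_split G B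
  have h4 := rpow_conv hγ hb0 hb1
  have h5 : (0 : ℝ) ≤ pr G univ := Nat.cast_nonneg _
  have h6 : (pr G univ : ℝ) * (b ^ γ + (1 - b) ^ γ) ≤
      pr G univ * (1 - 2 * b * (1 - 2 ^ (1 - γ))) := mul_le_mul_of_nonneg_left h4 h5
  have h7 : b * n = #B := by rw [hb, div_mul_cancel₀ _ hn0.ne']
  have h8 : (pr G univ : ℝ) * (b * (1 - 2 ^ (1 - γ))) ≤ ct G B := by
    rw [mul_add] at h6
    nlinarith
  calc (1 - 2 ^ (1 - γ)) * (#B : ℝ) * pr G univ =
      n * (pr G univ * (b * (1 - 2 ^ (1 - γ)))) := by rw [← h7]; ring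
    _ ≤ _ := mul_le_mul_of_nonneg_left h8 hn0.le

/-- minimum degree -/
theorem Sparse.min_deg {γ : ℝ} (hγ : 1 ≤ γ) {G : SimpleGraph V} (h : Sparse γ G) (v : V) :
    (pr G univ : ℝ) ≤ 2 * Fintype.card V * #(com G {v}) := by
  have hn : 0 < Fintype.card V := Fintype.card_pos_iff.2 ⟨v⟩
  set n : ℝ := (Fintype.card V : ℝ) with hnd
  have hn0 : 0 < n := by rw [hnd]; exact_mod_cast hn
  have hn1 : 1 ≤ n := by rw [hnd]; exact_mod_cast hn
  have hnγ : 0 < n ^ γ := Real.rpow_pos_of_pos hn0 γ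
  have h1 := h ({v}ᶜ)
  have h2 : pr G univ = pr G {v} + pr G {v}ᶜ + 2 * ct G {v} := pr_split G {v}
  have h3 : pr G {v} = 0 := by simp [pr]
  have h4 : ct G {v} ≤ #(com G {v}) := by
    unfold ct
    rw [sum_singleton]
    apply card_le_card
    intro y hy
    rw [mem_com]
    intro s hs
    rw [mem_singleton] at hs
    rw [hs]
    exact (mem_filter.1 hy).2
  have hc : (#({v}ᶜ : Finset V) : ℝ) = n - 1 := by
    rw [card_compl, Nat.cast_sub (card_le_univ _), hnd, card_singleton, Nat.cast_one]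
  have e2 : (#({v}ᶜ : Finset V) : ℝ) ^ γ = (1 - 1 / n) ^ γ * n ^ γ := by
    have : 0 ≤ 1 - 1 / n := by
      rw [sub_nonneg, div_le_one hn0]; exact hn1
    rw [← Real.mul_rpow this hn0.le, hc, sub_mul, div_mul_cancel₀ _ hn0.ne', one_mul]
  rw [← hnd, e2, ← mul_assoc] at h1
  have h1' := le_of_mul_le_mul_right h1 hnγ
  have h5 : (1 - 1 / n) ^ γ ≤ 1 - 1 / n := by
    have h6 : 0 ≤ 1 - 1 / n := by
      rw [sub_nonneg, div_le_one hn0]; exact hn1
    have h7 : 1 - 1 / n ≤ 1 := by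
      have : 0 < 1 / n := by positivity
      linarith
    rcases eq_or_lt_of_le h6 with h8 | h8
    · rw [← h8, Real.zero_rpow (by linarith)]
    · calc (1 - 1 / n) ^ γ ≤ (1 - 1 / n) ^ (1 : ℝ) :=
            Real.rpow_le_rpow_of_exponent_ge h8 h7 hγ
        _ = _ := Real.rpow_one _
  have h9 : (pr G univ : ℝ) = pr G {v}ᶜ + 2 * ct G {v} := by
    rw [h2, h3]; push_cast; ring
  have h10 : (0 : ℝ) ≤ pr G univ := Nat.cast_nonneg _
  have h11 := mul_le_mul_of_nonneg_left h5 h10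
  have h12 : (pr G univ : ℝ) * (1 / n) ≤ 2 * ct G {v} := by linarith
  have h13 : (pr G univ : ℝ) ≤ 2 * ct G {v} * n := by
    rw [mul_one_div, div_le_iff₀ hn0] at h12
    exact h12
  have h14 : (ct G {v} : ℝ) ≤ #(com G {v}) := by exact_mod_cast h4
  calc (pr G univ : ℝ) ≤ 2 * ct G {v} * n := h13
    _ ≤ 2 * #(com G {v}) * n := by gcongr
    _ = _ := by ring

/-- a densest subgraph -/
theorem exists_sparse (G : SimpleGraph V) (hn : 0 < Fintype.card V) (γ : ℝ) :
    ∃ (m : ℕ) (f : Fin m ↪ V), 0 < m ∧ Sparse γ (G.comap f) ∧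
      (pr G univ : ℝ) * (m : ℝ) ^ γ ≤ pr (G.comap f) univ * (Fintype.card V : ℝ) ^ γ := by
  have hne : ((univ : Finset V).powerset.filter fun U => U.Nonempty).Nonempty :=
    ⟨univ, mem_filter.2 ⟨mem_powerset.2 (subset_univ _), univ_nonempty_iff.2
      (Fintype.card_pos_iff.1 hn)⟩⟩
  obtain ⟨U, hU, hmax⟩ := exists_max_image _ (fun U : Finset V => (pr G U : ℝ) / (#U : ℝ) ^ γ) hne
  have hU0 : 0 < #U := card_pos.2 (mem_filter.1 hU).2
  have key : ∀ B : Finset V, B.Nonempty → (pr G B : ℝ) * (#U : ℝ) ^ γ ≤ pr G U * (#B : ℝ) ^ γ := by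
    intro B hB
    have h1 := hmax B (mem_filter.2 ⟨mem_powerset.2 (subset_univ _), hB⟩)
    have h2 : (0 : ℝ) < (#B : ℝ) ^ γ :=
      Real.rpow_pos_of_pos (by exact_mod_cast card_pos.2 hB) γ
    have h3 : (0 : ℝ) < (#U : ℝ) ^ γ := Real.rpow_pos_of_pos (by exact_mod_cast hU0) γ
    rwa [div_le_div_iff₀ h2 h3] at h1
  let e : Fin #U ≃ U := U.equivFin.symm
  let f : Fin #U ↪ V := e.toEmbedding.trans (Function.Embedding.subtype _)
  have hpr : ∀ B : Finset (Fin #U), pr (G.comap f) B = pr G (B.map f) := by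
    intro B
    rw [pr_eq_sum, pr_eq_sum, sum_map]
    refine sum_congr rfl fun x _ => ?_
    rw [sum_map]
    rfl
  have huniv : (univ : Finset (Fin #U)).map f = U := by
    ext x
    simp only [mem_map, mem_univ, true_and]
    constructor
    · rintro ⟨i, rfl⟩
      exact (e i).2
    · intro hx
      exact ⟨e.symm ⟨x, hx⟩, by simp [f]⟩
  refine ⟨#U, f, hU0, fun B => ?_, ?_⟩
  · rw [hpr, hpr, huniv, Fintype.card_fin]
    rcases B.eq_empty_or_nonempty with hB | hB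
    · subst hB
      simp only [map_empty, card_empty]
      have : pr G ∅ = 0 := by simp [pr]
      rw [this]
      simp only [CharP.cast_eq_zero, zero_mul]
      positivity
    · have := key (B.map f) (by simpa using hB)
      rwa [card_map] at this
  · rw [hpr, huniv]
    have := key univ (univ_nonempty_iff.2 (Fintype.card_pos_iff.1 hn))
    rwa [card_univ] at this

theorem free_comap {r : ℕ} {G : SimpleGraph V} {W : Type} (f : W ↪ V)
    (hG : (completeBipartiteGraph (Fin r) (Fin r)).Free G) :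
    (completeBipartiteGraph (Fin r) (Fin r)).Free (G.comap f) := by
  rintro ⟨g⟩
  exact hG ⟨⟨⟨fun x => f (g x), fun {a b} hab => g.toHom.map_adj hab⟩,
    fun a b hab => g.injective (f.injective hab)⟩⟩

theorem pr_univ (G : SimpleGraph V) : pr G univ = ∑ x, #(com G {x}) := by
  unfold pr
  refine sum_congr rfl fun x _ => ?_
  congr 1
  ext y
  simp [mem_com]

/-- the theorem of Kővári, Sós and Turán -/
theorem kst {r : ℕ} (hr : 2 ≤ r) : ∃ K : ℝ, 1 ≤ K ∧ ∀ (V : Type) [Fintype V] (G : SimpleGraph V),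
    (completeBipartiteGraph (Fin r) (Fin r)).Free G →
    (pr G univ : ℝ) ≤ K * (Fintype.card V : ℝ) ^ (2 - 1 / (r : ℝ)) := by
  obtain ⟨C, hC, h⟩ := cod hr (c := 1) one_pos
  have hrR : (2 : ℝ) ≤ r := by exact_mod_cast hr
  have hr0 : (0 : ℝ) < r := by linarith
  have h1r : 1 / (r : ℝ) ≤ 1 / 2 := one_div_le_one_div_of_le (by norm_num) hrR
  refine ⟨C + 2, by linarith, fun V _ G hG => ?_⟩
  by_contra hcon
  push Not at hcon
  rcases Nat.eq_zero_or_pos (Fintype.card V) with hn | hn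
  · have h1 : pr G univ = 0 := by
      have : (univ : Finset V) = ∅ := by
        rw [← card_eq_zero, card_univ]; exact hn
      rw [this]; simp [pr]
    rw [h1, hn] at hcon
    have : (0 : ℝ) ≤ (C + 2) * (((0 : ℕ) : ℝ)) ^ (2 - 1 / (r : ℝ)) := by positivity
    simp only [CharP.cast_eq_zero] at hcon this
    linarith
  obtain ⟨m, f, hm, hs, hle⟩ := exists_sparse G hn 1
  rw [Real.rpow_one, Real.rpow_one] at hle
  have hfree := free_comap f hG
  set G' := G.comap f with hG'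
  have hmn : (m : ℝ) ≤ Fintype.card V := by
    have := Fintype.card_le_of_embedding f
    rw [Fintype.card_fin] at this
    exact_mod_cast this
  have hm0 : (0 : ℝ) < m := by exact_mod_cast hm
  have hn0 : (0 : ℝ) < Fintype.card V := by exact_mod_cast hn
  have e1 : ∀ x : ℝ, 0 < x → x ^ (2 - 1 / (r : ℝ)) = x * x ^ (1 - 1 / (r : ℝ)) := by
    intro x hx
    nth_rewrite 2 [← Real.rpow_one x]
    rw [← Real.rpow_add hx]
    congr 1
    ring
  have hmp : (m : ℝ) ^ (1 - 1 / (r : ℝ)) ≤ (Fintype.card V : ℝ) ^ (1 - 1 / (r : ℝ)) :=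
    Real.rpow_le_rpow hm0.le hmn (by linarith)
  have hm1 : 0 < (m : ℝ) ^ (1 - 1 / (r : ℝ)) := by positivity
  -- the average degree of `G'` is large
  have h1 : (C + 2) * (m : ℝ) ^ (1 - 1 / (r : ℝ)) * m < pr G' univ := by
    rw [e1 _ hn0] at hcon
    have h2 := mul_lt_mul_of_pos_right hcon hm0
    have h3 : (C + 2) * ((Fintype.card V : ℝ) * (Fintype.card V : ℝ) ^ (1 - 1 / (r : ℝ))) * m <
      pr G' univ * Fintype.card V := h2.trans_le hle
    have h4 : ((C + 2) * (m : ℝ) ^ (1 - 1 / (r : ℝ)) * m) * Fintype.card V <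
        pr G' univ * Fintype.card V := by
      refine lt_of_le_of_lt ?_ h3
      have : 0 ≤ (C + 2) * m * (Fintype.card V : ℝ) := by positivity
      have h5 := mul_le_mul_of_nonneg_left hmp this
      linarith
    exact lt_of_mul_lt_mul_right h4 hn0.le
  have hdeg : ∀ v, 1 * (Fintype.card (Fin m) : ℝ) ^ (1 - 1 / (r : ℝ)) ≤ #(com G' {v}) := by
    intro v
    rw [one_mul, Fintype.card_fin]
    have h2 := hs.min_deg le_rfl v
    rw [Fintype.card_fin] at h2
    have h3 : (C + 2) * (m : ℝ) ^ (1 - 1 / (r : ℝ)) * m < 2 * #(com G' {v}) * m := by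
      calc (C + 2) * (m : ℝ) ^ (1 - 1 / (r : ℝ)) * m < pr G' univ := h1
        _ ≤ 2 * m * #(com G' {v}) := h2
        _ = _ := by ring
    have h4 := lt_of_mul_lt_mul_right h3 hm0.le
    nlinarith
  have h2 : (pr G' univ : ℝ) ≤ C * (m : ℝ) ^ (1 - 1 / (r : ℝ)) * m := by
    have h3 : ∀ v, (#(com G' {v}) : ℝ) ≤ C * (m : ℝ) ^ (1 - 1 / (r : ℝ)) := by
      intro v
      have := h (Fin m) G' hfree hdeg {v} (by rw [card_singleton]; omega)
      rw [card_singleton, Fintype.card_fin, Nat.cast_one] at this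
      exact this
    rw [pr_univ]
    push_cast
    refine (sum_le_sum fun v _ => h3 v).trans (le_of_eq ?_)
    rw [sum_const, card_univ, Fintype.card_fin, nsmul_eq_mul]
    ring
  have h3 : 0 < (m : ℝ) ^ (1 - 1 / (r : ℝ)) * m := by positivity
  nlinarith

/-- **graphs of extremal order contain sparse induced subgraphs of linear size** -/
theorem exists_large {r : ℕ} (hr : 2 ≤ r) {γ c : ℝ} (hγ : γ < 2 - 1 / (r : ℝ)) (hγ0 : 0 ≤ γ)
    (hc : 0 < c) : ∃ δ : ℝ, 0 < δ ∧ ∀ (V : Type) [Fintype V] (G : SimpleGraph V),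
    (completeBipartiteGraph (Fin r) (Fin r)).Free G → 0 < Fintype.card V →
    c * (Fintype.card V : ℝ) ^ (2 - 1 / (r : ℝ)) ≤ pr G univ →
    ∃ (m : ℕ) (f : Fin m ↪ V), 0 < m ∧ δ * Fintype.card V ≤ m ∧ Sparse γ (G.comap f) ∧
      c * (m : ℝ) ^ (2 - 1 / (r : ℝ)) ≤ pr (G.comap f) univ := by
  obtain ⟨K, hK, h⟩ := kst hr
  set β : ℝ := 2 - 1 / (r : ℝ) with hβ
  have hbg : 0 < β - γ := by linarith
  refine ⟨(c / K) ^ (1 / (β - γ)), by positivity, fun V _ G hG hn hcn => ?_⟩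
  obtain ⟨m, f, hm, hs, hle⟩ := exists_sparse G hn γ
  have hmn : (m : ℝ) ≤ Fintype.card V := by
    have := Fintype.card_le_of_embedding f
    rw [Fintype.card_fin] at this
    exact_mod_cast this
  have hm0 : (0 : ℝ) < m := by exact_mod_cast hm
  have hn0 : (0 : ℝ) < Fintype.card V := by exact_mod_cast hn
  set n : ℝ := (Fintype.card V : ℝ) with hnd
  have hnγ : 0 < n ^ γ := by positivity
  have hmγ : 0 < (m : ℝ) ^ γ := by positivity
  have e1 : ∀ x : ℝ, 0 < x → x ^ β = x ^ (β - γ) * x ^ γ := by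
    intro x hx
    rw [← Real.rpow_add hx]
    congr 1
    ring
  have h1 : c * n ^ (β - γ) * (m : ℝ) ^ γ ≤ pr (G.comap f) univ := by
    have h2 : c * n ^ (β - γ) * (m : ℝ) ^ γ * n ^ γ ≤ pr (G.comap f) univ * n ^ γ := by
      calc c * n ^ (β - γ) * (m : ℝ) ^ γ * n ^ γ = c * n ^ β * (m : ℝ) ^ γ := by rw [e1 n hn0]; ring
        _ ≤ pr G univ * (m : ℝ) ^ γ := mul_le_mul_of_nonneg_right hcn hmγ.le
        _ ≤ _ := hle
    exact le_of_mul_le_mul_right h2 hnγ
  refine ⟨m, f, hm, ?_, hs, ?_⟩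
  · have h2 := h (Fin m) (G.comap f) (free_comap f hG)
    rw [Fintype.card_fin, e1 m hm0, ← mul_assoc] at h2
    have h3 : c * n ^ (β - γ) ≤ K * (m : ℝ) ^ (β - γ) :=
      le_of_mul_le_mul_right (h1.trans h2) hmγ
    have h4 : c / K * n ^ (β - γ) ≤ (m : ℝ) ^ (β - γ) := by
      rw [div_mul_eq_mul_div, div_le_iff₀ (by linarith)]
      linarith
    have h5 : ((c / K) ^ (1 / (β - γ)) * n) ^ (β - γ) ≤ (m : ℝ) ^ (β - γ) := by
      rw [Real.mul_rpow (by positivity) hn0.le, ← Real.rpow_mul (by positivity),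
        one_div_mul_cancel hbg.ne', Real.rpow_one]
      exact h4
    exact (Real.rpow_le_rpow_iff (by positivity) hm0.le hbg).1 h5
  · refine le_trans ?_ h1
    rw [e1 m hm0, ← mul_assoc]
    gcongr

end Pool.Agent.L7h51.PR
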